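import Pool.Agent.Helper86.AN.Stmts

/-! MP_4042d8_co (Ando): facts on environments. -/

set_option autoImplicit false

namespace Pool.Agent.Helper79.AN

open Pool.Agent.Helper86.AN Finset

theorem st_ENVF (hRF : ST_RF) : ST_ENVF := by
  intro V _ _ s A m w u n e c hK hZ hE
  classical
  have hm := (hRF V s A m w u hK).1
  have hw := hK.winv
  have hwe : ∀ k, w (e k) ∈ Ap A u := fun k => (hw _ (hZ.eA k)).1
  have hww : ∀ k, w (w (e k)) = e k := fun k => (hw _ (hZ.eA k)).2.1
  have c1 : ∀ k, c (w (e k)) = !(c (e k)) := fun k => hE.bw _ (hZ.eA k)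
  have c2 : ∀ k, c (e (k + 1)) = c (e k) := by
    intro k
    have h := hE.bm _ (hwe k)
    rw [hZ.om, c1, Bool.not_not] at h
    exact h
  have c3 : ∀ k, c (e k) = true := by
    intro k
    induction k with
    | zero => exact hE.e0
    | succ k ih => rw [c2]; exact ih
    | pred k ih =>
      have h := c2 (-(k : ℤ) - 1)
      rw [sub_add_cancel, ih] at h
      exact h.symm
  have c4 : ∀ k, c (w (e k)) = false := by
    intro k
    rw [c1, c3]
    rfl
  refine ⟨c3, c4, ?_, ?_, ?_⟩
  · intro k l h
    have h1 := c3 k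
    rw [h, c4] at h1
    exact Bool.noConfusion h1
  · intro k l
    rw [← hZ.per k l]
    refine ⟨fun h => ?_, fun h => by rw [h]⟩
    have h1 := congrArg w h
    rw [hww, hww] at h1
    exact h1
  · -- the component is invariant
    have i1 : ∀ v ∈ Ap A u, InZ w e v → InZ w e (w v) := by
      rintro v _ ⟨k, hk | hk⟩
      · exact ⟨k, Or.inr (by rw [hk])⟩
      · exact ⟨k, Or.inl (by rw [hk, hww])⟩
    have i2 : ∀ v ∈ Ap A u, InZ w e v → InZ w e (m v) := by
      rintro v _ ⟨k, hk | hk⟩
      · refine ⟨k - 1, Or.inr ?_⟩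
        have h1 := hZ.om (k - 1)
        rw [sub_add_cancel] at h1
        have h2 := (hm _ (hwe (k - 1))).2.1
        rw [h1] at h2
        rw [hk]
        exact h2
      · exact ⟨k + 1, Or.inl (by rw [hk, hZ.om])⟩
    have j1 : ∀ v ∈ Ap A u, (InZ w e (w v) ↔ InZ w e v) := by
      intro v hv
      refine ⟨fun h => ?_, i1 v hv⟩
      have h1 := i1 _ (hw v hv).1 h
      rw [(hw v hv).2.1] at h1
      exact h1
    have j2 : ∀ v ∈ Ap A u, (InZ w e (m v) ↔ InZ w e v) := by
      intro v hv
      refine ⟨fun h => ?_, i2 v hv⟩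
      have h1 := i2 _ (hm v hv).1 h
      rw [(hm v hv).2.1] at h1
      exact h1
    refine ⟨fun v => if InZ w e v then c v else !(c v), ⟨?_, ?_, ?_⟩, ?_, ?_⟩
    · intro v hv
      show (if InZ w e (m v) then c (m v) else !(c (m v))) = !(if InZ w e v then c v else !(c v))
      have h1 := hE.bm v hv
      by_cases h : InZ w e v
      · rw [if_pos h, if_pos ((j2 v hv).2 h), h1]
      · rw [if_neg h, if_neg (fun h' => h ((j2 v hv).1 h')), h1]
    · intro v hv
      show (if InZ w e (w v) then c (w v) else !(c (w v))) = !(if InZ w e v then c v else !(c v))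
      have h1 := hE.bw v hv
      by_cases h : InZ w e v
      · rw [if_pos h, if_pos ((j1 v hv).2 h), h1]
      · rw [if_neg h, if_neg (fun h' => h ((j1 v hv).1 h')), h1]
    · show (if InZ w e (e 0) then c (e 0) else !(c (e 0))) = true
      rw [if_pos ⟨0, Or.inl rfl⟩]
      exact hE.e0
    · intro v _ h
      exact if_pos h
    · intro v _ h
      exact if_neg h

end Pool.Agent.Helper79.AN
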