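import Pool.Agent.Helper86.AN.Stmts

/-! MP_4042d8_co (Ando): existence of kink data. -/

set_option autoImplicit false

namespace Pool.Agent.Helper79.AN

open Pool.Agent.Helper86.AN Finset

variable {V : Type} [Fintype V] [DecidableEq V]

theorem kex_mem {s : Equiv.Perm V} {a v : V} : v ∈ orb s a ↔ s.SameCycle a v := by
  classical
  unfold orb
  simp only [mem_filter, mem_univ, true_and]

theorem kex_orb {s : Equiv.Perm V} {a v : V} (h : s.SameCycle a v) : orb s v = orb s a := by
  ext x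
  rw [kex_mem, kex_mem]
  exact ⟨fun h' => h.trans h', fun h' => h.symm.trans h'⟩

theorem kex_sinv (s : Equiv.Perm V) (a b : V) : Sinv s (orb s a ∪ orb s b) := by
  intro v
  rw [mem_union, mem_union, kex_mem, kex_mem, kex_mem, kex_mem]
  rw [Equiv.Perm.sameCycle_apply_right, Equiv.Perm.sameCycle_apply_right]

omit [Fintype V] [DecidableEq V] in
theorem kex_even {S : Finset V} {m : V → V} (h : ∀ v ∈ S, m v ∈ S ∧ m (m v) = v ∧ m v ≠ v) :
    Even S.card := by
  have h1 : ∑ x ∈ S, (1 : ZMod 2) = 0 := by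
    refine Finset.sum_involution (fun x _ => m x) ?_ ?_ ?_ ?_
    · intro x _
      decide
    · intro x hx _
      exact (h x hx).2.2
    · intro x hx
      exact (h x hx).1
    · intro x hx
      exact (h x hx).2.1
  rw [Finset.sum_const, nsmul_eq_mul, mul_one] at h1
  exact (ZMod.natCast_eq_zero_iff_even).1 h1

theorem st_KEX (hTIL : ST_TIL) : ST_KEX := by
  intro V _ _ s m a b hab ha hb hper hinv
  classical
  -- a matching edge between the two cycles
  obtain ⟨u0, hu0, hu1⟩ : ∃ u0 ∈ orb s a, m u0 ∈ orb s b := by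
    by_contra hcon
    push Not at hcon
    have h1 : Even (orb s a).card := by
      refine kex_even (m := m) ?_
      intro v hv
      obtain ⟨h2, h3, h4⟩ := hinv v (mem_union_left _ hv)
      refine ⟨?_, h3, h4⟩
      rcases mem_union.1 h2 with h5 | h5
      · exact h5
      · exact absurd h5 (hcon v hv)
    exact (Nat.not_even_iff_odd.2 ha) h1
  obtain ⟨_, hmm, _⟩ := hinv u0 (mem_union_left _ hu0)
  set u1 := m u0 with hu1def
  have e0 : orb s u0 = orb s a := kex_orb (kex_mem.1 hu0)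
  have e1 : orb s u1 = orb s b := kex_orb (kex_mem.1 hu1)
  rw [← e0] at ha hper hinv ⊢
  rw [← e1] at hb hper hinv ⊢
  have hns : ¬ s.SameCycle u0 u1 := by
    intro h
    exact hab ((kex_mem.1 hu0).trans (h.trans (kex_mem.1 hu1).symm))
  have hdis : ∀ v, v ∈ orb s u0 → v ∈ orb s u1 → False := by
    intro v h h'
    exact hns ((kex_mem.1 h).trans (kex_mem.1 h').symm)
  have hs0 : u0 ∈ orb s u0 := kex_mem.2 (Equiv.Perm.SameCycle.refl s u0)
  have hs1 : u1 ∈ orb s u1 := kex_mem.2 (Equiv.Perm.SameCycle.refl s u1)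
  obtain ⟨w0, hw0, ht0⟩ := (hTIL V s u0).2 ha
  obtain ⟨w1, hw1, ht1⟩ := (hTIL V s u1).2 hb
  set w : V → V := fun v => if v ∈ orb s u0 then w0 v else w1 v with hw
  have hwa : ∀ v, v ∈ orb s u0 → w v = w0 v := fun v hv => if_pos hv
  have hwb : ∀ v, v ∉ orb s u0 → w v = w1 v := fun v hv => if_neg hv
  refine ⟨w, fun i => cond i u1 u0, kex_sinv s u0 u1, hper, hinv, ?_, ?_, hns, ?_, ?_⟩
  · intro i
    cases i with
    | true => exact mem_union_right _ hs1
    | false => exact mem_union_left _ hs0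
  · intro i
    cases i with
    | true => exact hmm
    | false => rfl
  · intro v hv
    have hv1 : v ≠ u1 ∧ v ≠ u0 ∧ v ∈ orb s u0 ∪ orb s u1 := by
      have h := mem_erase.1 hv
      have h' := mem_erase.1 h.2
      exact ⟨h.1, h'.1, h'.2⟩
    have hmk : ∀ x, x ≠ u1 → x ≠ u0 → x ∈ orb s u0 ∪ orb s u1 →
        x ∈ Ap (orb s u0 ∪ orb s u1) (fun i => cond i u1 u0) := by
      intro x h1 h2 h3
      exact mem_erase.2 ⟨h1, mem_erase.2 ⟨h2, h3⟩⟩
    by_cases h : v ∈ orb s u0
    · obtain ⟨g1, g2, g3⟩ := hw0 v (mem_erase.2 ⟨hv1.2.1, h⟩)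
      obtain ⟨g4, g5⟩ := mem_erase.1 g1
      refine ⟨?_, ?_, ?_⟩
      · rw [hwa v h]
        refine hmk _ ?_ g4 (mem_union_left _ g5)
        intro h6
        rw [h6] at g5
        exact hdis u1 g5 hs1
      · rw [hwa v h, hwa _ g5]
        exact g2
      · rw [hwa v h]
        exact g3
    · have h7 : v ∈ orb s u1 := by
        rcases mem_union.1 hv1.2.2 with h8 | h8
        · exact absurd h8 h
        · exact h8
      obtain ⟨g1, g2, g3⟩ := hw1 v (mem_erase.2 ⟨hv1.1, h7⟩)
      obtain ⟨g4, g5⟩ := mem_erase.1 g1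
      have g6 : w1 v ∉ orb s u0 := fun h8 => hdis _ h8 g5
      refine ⟨?_, ?_, ?_⟩
      · rw [hwb v h]
        refine hmk _ g4 ?_ (mem_union_right _ g5)
        intro h6
        rw [h6] at g6
        exact g6 hs0
      · rw [hwb v h, hwb _ g6]
        exact g2
      · rw [hwb v h]
        exact g3
  · intro v hv
    have hv1 : v ≠ u1 ∧ v ≠ u0 ∧ v ∈ orb s u0 ∪ orb s u1 := by
      have h := mem_erase.1 hv
      have h' := mem_erase.1 h.2
      exact ⟨h.1, h'.1, h'.2⟩
    by_cases h : v ∈ orb s u0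
    · rw [hwa v h]
      exact ht0 v (mem_erase.2 ⟨hv1.2.1, h⟩)
    · have h7 : v ∈ orb s u1 := by
        rcases mem_union.1 hv1.2.2 with h8 | h8
        · exact absurd h8 h
        · exact h8
      rw [hwb v h]
      exact ht1 v (mem_erase.2 ⟨hv1.1, h7⟩)

end Pool.Agent.Helper79.AN
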